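import Pool.Agent.Helper12.D4.Jb

/-!
# Project D4 (MP_e1889a_ag): theorem P
-/

set_option autoImplicit false

namespace Pool.Agent.Helper74.D4

open Module Filter Topology Pool.Agent.Helper37.SD Pool.Agent.Helper20.TS Pool.Agent.Helper88.D4
  Pool.Agent.Helper12.D4

section Basic

variable {K : Type} [Field K] [Algebra ℂ K]

theorem gt_sum (v : RVal K) {ι : Type} {c : ℝ} (s : Finset ι) (x : ι → K)
    (h : ∀ i ∈ s, v.Gt c (x i)) : v.Gt c (∑ i ∈ s, x i) := by
  classical
  induction s using Finset.induction_on with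
  | empty => exact Or.inl rfl
  | insert a s ha ih =>
    rw [Finset.sum_insert ha]
    exact v.gt_add (h a (Finset.mem_insert_self a s))
      (ih fun i hi => h i (Finset.mem_insert_of_mem hi))

/-- An element which is integral over a ring on which `v` is not negative has nonnegative
value. -/
theorem ge_of_integral (v : RVal K) (A : Subalgebra ℂ K) (hA : ∀ y ∈ A, v.Ge 0 y) {x : K}
    (hx : IsIntegral A x) : v.Ge 0 x := by
  by_contra hcon
  have hx0 : x ≠ 0 := fun h => hcon (Or.inl h)
  have hlt : v.val x < 0 := by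
    by_contra h
    exact hcon (Or.inr (not_lt.mp h))
  obtain ⟨p, hp, hpx⟩ := hx
  rw [Polynomial.eval₂_eq_sum_range, Finset.sum_range_succ, hp.coeff_natDegree, map_one,
    one_mul] at hpx
  have h1 : v.Gt (p.natDegree * v.val x)
      (∑ i ∈ Finset.range p.natDegree, algebraMap A K (p.coeff i) * x ^ i) := by
    refine gt_sum v _ _ fun i hi => ?_
    have hi' : i < p.natDegree := Finset.mem_range.mp hi
    by_cases h0 : algebraMap A K (p.coeff i) = 0
    · exact Or.inl (by rw [h0, zero_mul])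
    · refine Or.inr ?_
      have h2 : 0 ≤ v.val (algebraMap A K (p.coeff i)) :=
        (hA _ (p.coeff i).2).resolve_left h0
      rw [v.map_mul _ _ h0 (pow_ne_zero i hx0), v.val_pow hx0]
      have h3 : (i : ℝ) < p.natDegree := by exact_mod_cast hi'
      nlinarith
  have h4 : x ^ p.natDegree = -∑ i ∈ Finset.range p.natDegree,
      algebraMap A K (p.coeff i) * x ^ i := by
    rw [eq_neg_iff_add_eq_zero, add_comm]
    exact hpx
  have hxn : x ^ p.natDegree ≠ 0 := pow_ne_zero _ hx0
  have h5 : v.val (x ^ p.natDegree) = p.natDegree * v.val x := v.val_pow hx0 _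
  rcases h1 with h1 | h1
  · rw [h1, neg_zero] at h4
    exact hxn h4
  · rw [h4, v.val_neg] at h5
    linarith

/-- The elements of `Ah R h` have the property `P` if `P` defines a subring which contains `R`
and the field `ℂ(h)`. -/
theorem ah_induction {R : Subalgebra ℂ K} {h : K} (B : Subalgebra ℂ K) (hR : R ≤ B)
    (hh : ∀ x ∈ IntermediateField.adjoin ℂ {h}, x ∈ B) : Ah R h ≤ B :=
  sup_le hR hh

theorem le_ah {R : Subalgebra ℂ K} {h : K} {x : K} (hx : x ∈ R) : x ∈ Ah R h :=
  (le_sup_left : R ≤ Ah R h) hx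

theorem adjoin_le_ah {R : Subalgebra ℂ K} {h : K} {x : K}
    (hx : x ∈ IntermediateField.adjoin ℂ {h}) : x ∈ Ah R h :=
  (le_sup_right : (IntermediateField.adjoin ℂ {h}).toSubalgebra ≤ Ah R h) hx

/-- A derivation which vanishes at `h` vanishes on `ℂ(h)`. -/
theorem der_adjoin (D : Derivation ℂ K K) {h : K} (hD : D h = 0) {x : K}
    (hx : x ∈ IntermediateField.adjoin ℂ {h}) : D x = 0 := by
  induction hx using IntermediateField.adjoin_induction with
  | mem x hx =>
    rw [Set.mem_singleton_iff.mp hx]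
    exact hD
  | algebraMap x => exact D.map_algebraMap x
  | add x y _ _ hx hy => rw [map_add, hx, hy, add_zero]
  | inv x _ hx =>
    by_cases h0 : x = 0
    · rw [h0, inv_zero, map_zero]
    · have h1 : D (x * x⁻¹) = 0 := by rw [mul_inv_cancel₀ h0, Derivation.map_one_eq_zero]
      rw [Derivation.leibniz, hx, smul_zero, add_zero, smul_eq_mul] at h1
      exact (mul_eq_zero.mp h1).resolve_left h0
  | mul x y _ _ hx hy => rw [Derivation.leibniz, hx, hy, smul_zero, smul_zero, add_zero]

/-- A derivation which vanishes at `h` and maps `R` to `Ah R h` maps `Ah R h` to itself. -/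
theorem der_ah (D : Derivation ℂ K K) {R : Subalgebra ℂ K} {h : K} (hD : D h = 0)
    (hR : ∀ x ∈ R, D x ∈ Ah R h) {x : K} (hx : x ∈ Ah R h) : D x ∈ Ah R h := by
  let B : Subalgebra ℂ K :=
    { carrier := {x | x ∈ Ah R h ∧ D x ∈ Ah R h}
      mul_mem' := fun {x y} hx hy => ⟨(Ah R h).mul_mem hx.1 hy.1, by
        rw [Derivation.leibniz, smul_eq_mul, smul_eq_mul]
        exact (Ah R h).add_mem ((Ah R h).mul_mem hx.1 hy.2) ((Ah R h).mul_mem hy.1 hx.2)⟩
      add_mem' := fun {x y} hx hy => ⟨(Ah R h).add_mem hx.1 hy.1, by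
        rw [map_add]
        exact (Ah R h).add_mem hx.2 hy.2⟩
      algebraMap_mem' := fun c => ⟨(Ah R h).algebraMap_mem c, by
        rw [Derivation.map_algebraMap]
        exact (Ah R h).zero_mem⟩ }
  have h1 : Ah R h ≤ B := ah_induction B (fun x hx => ⟨le_ah hx, hR x hx⟩)
    (fun x hx => ⟨adjoin_le_ah hx, by
      rw [der_adjoin D hD hx]
      exact (Ah R h).zero_mem⟩)
  exact (h1 hx).2

/-- `wt ξ` is not negative on `Ah R h` if `h` has degree 0. -/
theorem wt_ah {R : Subalgebra ℂ K} {ξ : Derivation ℂ K K} {v : RVal K} (hC : IsCone R ξ)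
    (hv : IsWt R ξ v) {h : K} (hh : ξ h = 0) {x : K} (hx : x ∈ Ah R h) : v.Ge 0 x := by
  let B : Subalgebra ℂ K :=
    { carrier := {x | v.Ge 0 x}
      mul_mem' := fun {x y} hx hy => by
        have := v.ge_mul hx hy
        rwa [add_zero] at this
      add_mem' := fun {x y} hx hy => v.ge_add hx hy
      algebraMap_mem' := fun c => by
        by_cases hc : c = 0
        · exact Or.inl (by rw [hc, map_zero])
        · exact Or.inr (by rw [v.map_const c hc]) }
  have h1 : Ah R h ≤ B := ah_induction B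
    (fun x hx => by
      by_cases h0 : x = 0
      · exact Or.inl h0
      · exact Or.inr (hv.nonneg hC hx h0))
    (fun x hx => by
      by_cases h0 : x = 0
      · exact Or.inl h0
      · refine Or.inr (le_of_eq ?_)
        symm
        refine hv.val_eig hC h0 (c := 0) ?_
        rw [der_adjoin ξ hh hx]
        simp)
  exact h1 hx

/-- The log discrepancy bound is monotone. -/
theorem LDLe.mono {J : Bra K} {w : RVal K} {c c' : ℝ} (h : LDLe J w c) (hc : c ≤ c') :
    LDLe J w c' := fun x y z t hx hy hz ht =>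
  w.ge_mono (by linarith) (h x y z t hx hy hz ht)

end Basic

section Theta

variable {K : Type} [Field K] [Algebra ℂ K]

/-- The number `a`, the weights and the slopes. -/
theorem slope {a k N : ℝ} (ha : 0 < a) (hN : 0 < N)
    (h : ∀ r s : ℕ, 1 ≤ r → r * k < s * N → a * r < 2 * N * s) : a ≤ 2 * k := by
  by_contra hcon
  have hcon := not_le.mp hcon
  have h1 : max (k / N) 0 < a / (2 * N) := by
    refine max_lt ?_ (by positivity)
    rw [div_lt_div_iff₀ hN (by positivity)]
    nlinarith
  obtain ⟨q, hq1, hq2⟩ := exists_rat_btwn h1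
  have hq0 : (0 : ℝ) < q := lt_of_le_of_lt (le_max_right _ _) hq1
  have hqk : k / N < q := lt_of_le_of_lt (le_max_left _ _) hq1
  have hq0' : 0 < q := by exact_mod_cast hq0
  have hnum : 0 < q.num := Rat.num_pos.mpr hq0'
  have hden : (0 : ℝ) < q.den := by exact_mod_cast q.den_pos
  have e1 : ((q.num.toNat : ℕ) : ℝ) = (q.num : ℝ) := by
    have : ((q.num.toNat : ℕ) : ℤ) = q.num := Int.toNat_of_nonneg hnum.le
    exact_mod_cast this
  have e2 : (q : ℝ) = (q.num : ℝ) / (q.den : ℝ) := by exact_mod_cast (Rat.num_div_den q).symm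
  have e3 : (q : ℝ) * q.den = q.num := by
    rw [e2]
    field_simp
  have h2 := h q.den q.num.toNat q.den_pos (by
    rw [e1, ← e3]
    rw [div_lt_iff₀ hN] at hqk
    nlinarith)
  rw [e1, ← e3] at h2
  rw [lt_div_iff₀ (by positivity)] at hq2
  nlinarith

end Theta

/-- theorem P -/
theorem s_P (hEX1 : S_EX1) (hEX2 : S_EX2) (hLD : S_LDfr) (hT0 : S_T0) (hV3 : S_V3) (hUN : S_UN)
    (hCL : S_CL) (hREG : S_REG) : S_P := by
  intro K _ _ R ξ J v a V hC hM f g b N k α hf hg hf0 hg0 hN hξf hξg hcop hh hb0 hξb hα hreg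
  set h : K := f / g with hdef
  have hA : IsAlt J := hC.alt
  have hcone : IsCone R ξ := hC.toIsCone
  have hh0 : h ≠ 0 := div_ne_zero hf0 hg0
  have hfg : f = h * g := by rw [hdef, div_mul_cancel₀ _ hg0]
  -- `ξ h = 0`
  have hξh : ξ h = 0 := by
    rw [hdef, quot ξ f g hg0, hξf, hξg]
    simp only [Algebra.smul_def]
    ring
  -- `θ`
  set θ : K → K → K := fun y z => (b / g) * J h g z y with hθ
  have hanti : ∀ y z, J h g y z = -(J h g z y) := by
    intro y z
    have e1 : J y h g = J h g y := by rw [hA.s2 h y g, hA.s3 h g y, neg_neg]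
    rw [l3 hA y h g z, neg_neg, e1]
  have hθanti : ∀ y z, θ z y = -θ y z := by
    intro y z
    simp only [hθ]
    rw [hanti y z]
    ring
  -- `θ` maps `R × R` to `R`
  have hθR : ∀ y ∈ R, ∀ z ∈ R, θ y z ∈ R := by
    intro y hy z hz
    have h1 : g * θ y z ∈ R := by
      have e : g * θ y z = α (J g y z) := by
        rw [hα, hθ, l2 hA h g y z]
        field_simp
      rw [e]
      exact hreg _ fun x hx => hC.reg x hx g hg y hy z hz
    have h2 : f * θ y z ∈ R := by
      have e : f * θ y z = α (J f y z) := by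
        have e1 : J f y z h = h * J g y z h := by
          conv_lhs => rw [hfg]
          rw [mul1 hA h g y z, Derivation.add_apply, Derivation.smul_apply,
            Derivation.smul_apply, z01 hA h y z, smul_zero, add_zero, smul_eq_mul]
        rw [hα, e1, hθ, l2 hA h g y z]
        simp only
        rw [hfg]
        field_simp
      rw [e]
      exact hreg _ fun x hx => hC.reg x hx f hf y hy z hz
    by_contra hcon
    obtain ⟨u, hu, hux⟩ := hEX1 K R hC.frac hC.fg hC.normal _ hcon
    have h0 : θ y z ≠ 0 := by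
      intro h0
      rw [h0] at hcon
      exact hcon R.zero_mem
    rcases hcop u hu with hc | hc
    · have h3 := hu.nonneg _ h2 (mul_ne_zero hf0 h0)
      rw [u.map_mul _ _ hf0 h0, hc] at h3
      linarith
    · have h3 := hu.nonneg _ h1 (mul_ne_zero hg0 h0)
      rw [u.map_mul _ _ hg0 h0, hc] at h3
      linarith
  -- `θ` maps `Ah × Ah` to `Ah`
  have hθA : ∀ y ∈ Ah R h, ∀ z ∈ Ah R h, θ y z ∈ Ah R h := by
    have hD : ∀ z, ((b / g) • J h g z) h = 0 := by
      intro z
      rw [Derivation.smul_apply, z01 hA h g z, smul_zero]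
    have hDa : ∀ y z, ((b / g) • J h g z) y = θ y z := by
      intro y z
      rw [Derivation.smul_apply, smul_eq_mul]
    have h1 : ∀ y ∈ Ah R h, ∀ z ∈ R, θ y z ∈ Ah R h := by
      intro y hy z hz
      rw [← hDa]
      refine der_ah _ (hD z) (fun x hx => ?_) hy
      rw [hDa]
      exact le_ah (hθR x hx z hz)
    intro y hy z hz
    rw [← hDa]
    refine der_ah _ (hD z) (fun x hx => ?_) hy
    rw [hDa, hθanti z x]
    exact (Ah R h).neg_mem (h1 z hz x hx)
  -- the coprimality of `f` and `g`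
  have hcop' : ∀ x ∈ R, ∀ y ∈ R, g * x = f * y → ∃ z ∈ R, x = f * z := by
    intro x hx y hy hxy
    refine ⟨x / f, ?_, by field_simp⟩
    by_contra hcon
    obtain ⟨u, hu, hux⟩ := hEX1 K R hC.frac hC.fg hC.normal _ hcon
    have hx0 : x ≠ 0 := by
      intro h0
      rw [h0, zero_div] at hcon
      exact hcon R.zero_mem
    have hy0 : y ≠ 0 := by
      intro h0
      rw [h0, mul_zero] at hxy
      exact (mul_ne_zero hg0 hx0) hxy
    have e : x / f = y / g := by
      rw [div_eq_div_iff hf0 hg0]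
      linear_combination hxy
    have hxn := hu.nonneg x hx hx0
    have hyn := hu.nonneg y hy hy0
    rcases hcop u hu with hc | hc
    · rw [u.val_div hx0 hf0, hc] at hux
      linarith
    · rw [e, u.val_div hy0 hg0, hc] at hux
      linarith
  -- the valuations over `Ah`
  have hval : ∀ u : RVal K, DVal u → (∀ y ∈ Ah R h, y ≠ 0 → 0 ≤ u.val y) →
      (∃ y z, y ∈ Ah R h ∧ z ∈ Ah R h ∧ RInd u ![h, y, z]) →
      (∀ g ∈ R, g ≠ 0 → h * g ∈ R → u.val g = 0 → PDiv R u) →
      0 ≤ u.val b ∧ (0 < u.val g → a * u.val g ≤ 2 * N * u.val b) := by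
    intro u hu huA ⟨y, z, hy, hz, hind⟩ hP
    have huh : u.val h = 0 := by
      have := (hind (MvPolynomial.X 0) (MvPolynomial.X_ne_zero 0)).2
      rwa [MvPolynomial.aeval_X] at this
    have huR : ∀ x ∈ R, x ≠ 0 → 0 ≤ u.val x := fun x hx h0 => huA x (le_ah hx) h0
    have huf : u.val f = u.val g := by rw [hfg, u.map_mul _ _ hh0 hg0, huh, zero_add]
    rcases (huR g hg hg0).lt_or_eq with hug | hug
    · -- `u g > 0`
      obtain ⟨hJ0, hLDu⟩ := hLD K J hC.trdeg hA u hu ![h, y, z] hind g hg0 hug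
      have eJ : J (![h, y, z] 0) (![h, y, z] 1) (![h, y, z] 2) g = J h y z g := rfl
      rw [eJ] at hJ0 hLDu
      have h0c := (hT0 K R ξ J v a V hC hM u _ huR hLDu).1
      have e1 : θ y z = -((b / g) * J h y z g) := by
        simp only [hθ]
        rw [l2 hA h g y z |>.symm, l1 hA h g y z]
        ring
      have hJb : (b / g) * J h y z g ≠ 0 := mul_ne_zero (div_ne_zero hb0 hg0) hJ0
      have h2 : 0 ≤ u.val (θ y z) := huA _ (hθA y hy z hz) (by
        rw [e1]
        exact neg_ne_zero.mpr hJb)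
      rw [e1, u.val_neg, u.map_mul _ _ (div_ne_zero hb0 hg0) hJ0, u.val_div hb0 hg0] at h2
      have h3 : LDLe J u (u.val b) := LDLe.mono hLDu (by linarith)
      exact ⟨by linarith, fun _ => hV3 K R ξ J v a V hC hM u _ huR h3 f g N (u.val g) hf hg hf0 hg0
        hN hξf hξg hcop' hug.le (le_of_eq huf.symm) le_rfl⟩
    · -- `u g = 0`
      have hPD : PDiv R u := hP g hg hg0 (by rw [← hfg]; exact hf) hug.symm
      refine ⟨?_, fun h => absurd h (by rw [← hug]; exact lt_irrefl _)⟩
      obtain ⟨p, hp, hp0, hup⟩ := hPD.unif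
      obtain ⟨x₁, hx₁, x₂, hx₂, x₃, hx₃, hJ0, hJu⟩ := hUN K R ξ J a hC u hPD p hp0 hup
      have hx : ∀ i, u.Ge 0 (![x₁, x₂, x₃] i) := by
        have hR' : ∀ x ∈ R, u.Ge 0 x := fun x hx => by
          by_cases h0 : x = 0
          · exact Or.inl h0
          · exact Or.inr (huR x hx h0)
        intro i
        fin_cases i
        · exact hR' x₁ hx₁
        · exact hR' x₂ hx₂
        · exact hR' x₃ hx₃
      have hcl := hCL K R ξ J a hC u hPD p hp0 hup ![x₁, x₂, x₃] hx hJ0 hJu h
        (Or.inr huh.ge)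
      have hnot : ¬ ∀ i j, u.Ge 1 (J h (![x₁, x₂, x₃] i) (![x₁, x₂, x₃] j) p) := by
        intro hall
        obtain ⟨t, ht⟩ := hcl hall
        have h5 := hind (MvPolynomial.X 0 - MvPolynomial.C t) (by
          intro h6
          have h7 := congrArg (MvPolynomial.eval (fun _ => t + 1)) h6
          rw [map_sub, MvPolynomial.eval_X, MvPolynomial.eval_C, map_zero] at h7
          have h8 : t + 1 - t = 1 := by ring
          rw [h8] at h7
          exact one_ne_zero h7)
        rw [map_sub, MvPolynomial.aeval_X, MvPolynomial.aeval_C] at h5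
        have e0 : (![h, y, z] : Fin 3 → K) 0 = h := rfl
        rw [e0] at h5
        rcases ht with ht | ht
        · exact h5.1 ht
        · rw [h5.2] at ht
          linarith
      push Not at hnot
      obtain ⟨i, j, hij⟩ := hnot
      have hJ1 : J h (![x₁, x₂, x₃] i) (![x₁, x₂, x₃] j) p ≠ 0 := fun h0 => hij (Or.inl h0)
      have hJ2 : u.val (J h (![x₁, x₂, x₃] i) (![x₁, x₂, x₃] j) p) < 1 := by
        by_contra hc
        exact hij (Or.inr (not_lt.mp hc))
      obtain ⟨n, hn⟩ := hPD.int _ hJ1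
      have hJ3 : u.val (J h (![x₁, x₂, x₃] i) (![x₁, x₂, x₃] j) p) ≤ 0 := by
        rw [hn] at hJ2 ⊢
        have : n < 1 := by exact_mod_cast hJ2
        have : n ≤ 0 := by omega
        exact_mod_cast this
      have e3 : J p (![x₁, x₂, x₃] i) (![x₁, x₂, x₃] j) h =
          -J h (![x₁, x₂, x₃] i) (![x₁, x₂, x₃] j) p := by
        rw [l1 hA h p]
      have h6 := (hREG K R ξ J a hC α).1 hreg u hPD p (![x₁, x₂, x₃] i) (![x₁, x₂, x₃] j)
        (Or.inr (by rw [hup]; exact zero_le_one)) (hx i) (hx j)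
      rw [hα, e3] at h6
      have h7 := h6.resolve_left (mul_ne_zero hb0 (neg_ne_zero.mpr hJ1))
      rw [u.map_mul _ _ hb0 (neg_ne_zero.mpr hJ1), u.val_neg] at h7
      linarith
  -- the end
  refine slope hM.apos hN fun r s hr hrs => ?_
  set x : K := b ^ r / g ^ s with hx
  have hbr0 : b ^ r ≠ 0 := pow_ne_zero r hb0
  have hgs0 : g ^ s ≠ 0 := pow_ne_zero s hg0
  have hx0 : x ≠ 0 := div_ne_zero hbr0 hgs0
  have hvx : v.val x < 0 := by
    rw [hx, v.val_div hbr0 hgs0, v.val_pow hb0, v.val_pow hg0, hM.wt.val_eig hcone hb0 hξb,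
      hM.wt.val_eig hcone hg0 hξg]
    linarith
  have hni : ¬ IsIntegral (Ah R h) x := by
    intro hi
    rcases ge_of_integral v (Ah R h) (fun y hy => wt_ah hcone hM.wt hξh hy) hi with h1 | h1
    · exact hx0 h1
    · linarith
  obtain ⟨u, hu, hux, huA, hyz, hP⟩ := hEX2 K R hC.frac hC.fg hC.normal hC.trdeg h hh x hni
  obtain ⟨h1, h2⟩ := hval u hu huA hyz hP
  rw [hx, u.val_div hbr0 hgs0, u.val_pow hb0, u.val_pow hg0] at hux
  have hr' : (1 : ℝ) ≤ r := by exact_mod_cast hr
  have hug0 : 0 ≤ u.val g := huA g (le_ah hg) hg0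
  have hrb : 0 ≤ (r : ℝ) * u.val b := by positivity
  have hsg : 0 < (s : ℝ) * u.val g := by linarith
  have hug : 0 < u.val g := by
    rcases hug0.lt_or_eq with h3 | h3
    · exact h3
    · rw [← h3, mul_zero] at hsg
      exact absurd hsg (lt_irrefl _)
  have h3 := h2 hug
  have h4 : a * r * u.val g < 2 * N * s * u.val g := by nlinarith
  exact lt_of_mul_lt_mul_right h4 hug.le

end Pool.Agent.Helper74.D4
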