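import Pool.Agent.Helper20.D4.Lau
import Pool.Agent.Helper74.D4.P

/-!
# Project D4 (MP_e1889a_ag): the Cox algebra is normal
-/

set_option autoImplicit false
set_option linter.unusedSectionVars false

namespace Pool.Agent.Helper74.D4

open Module Pool.Agent.Helper37.SD Pool.Agent.Helper20.TS Pool.Agent.Helper88.D4
  Pool.Agent.Helper20.D4

variable {K K' : Type} [Field K] [Algebra ℂ K] [Field K'] [Algebra ℂ K'] [Algebra K K'] {p : ℕ}
  {t : Fin p → K'} {R : Subalgebra ℂ K} {u : Fin p → RVal K}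

/-- Different valuations are not both equal to a third one. -/
theorem dist_of_not {w : RVal K} (hd : ∀ i j, i ≠ j → Dist (u i) (u j)) {i j : Fin p}
    (hij : i ≠ j) (hw : ¬ Dist w (u i)) : Dist w (u j) := by
  obtain ⟨y, hy, h⟩ := hd i j hij
  refine ⟨y, hy, fun h1 => h ?_⟩
  rw [← h1]
  by_contra h2
  exact hw ⟨y, hy, fun h3 => h2 h3.symm⟩

theorem not_dist_self (w : RVal K) : ¬ Dist w w := fun ⟨_, _, h⟩ => h rfl

theorem ge_congr {w w' : RVal K} (h : ¬ Dist w w') {c : ℝ} {x : K} : w.Ge c x ↔ w'.Ge c x := by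
  have e : ∀ y, y ≠ 0 → w.val y = w'.val y := fun y hy => by
    by_contra h1
    exact h ⟨y, hy, h1⟩
  by_cases hx : x = 0
  · exact ⟨fun _ => Or.inl hx, fun _ => Or.inl hx⟩
  · unfold RVal.Ge
    rw [e x hx]

open Classical in
/-- the weights of the variables -/
noncomputable def ew (u : Fin p → RVal K) (w : RVal K) (i : Fin p) : ℝ :=
  if Dist w (u i) then 0 else 1

theorem ew_of_dist {w : RVal K} {i : Fin p} (h : Dist w (u i)) : ew u w i = 0 := if_pos h

theorem ew_of_not {w : RVal K} {i : Fin p} (h : ¬ Dist w (u i)) : ew u w i = 1 := if_neg h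

theorem sum_ew_of_dist {w : RVal K} (h : ∀ i, Dist w (u i)) (n : Fin p → ℤ) :
    ∑ i, (n i : ℝ) * ew u w i = 0 :=
  Finset.sum_eq_zero fun i _ => by rw [ew_of_dist (h i), mul_zero]

theorem sum_ew_of_not {w : RVal K} (hd : ∀ i j, i ≠ j → Dist (u i) (u j)) {i : Fin p}
    (h : ¬ Dist w (u i)) (n : Fin p → ℤ) : ∑ j, (n j : ℝ) * ew u w j = n i := by
  rw [Finset.sum_eq_single i]
  · rw [ew_of_not h, mul_one]
  · intro j _ hj
    rw [ew_of_dist (dist_of_not hd (Ne.symm hj) h), mul_zero]
  · intro h1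
    exact absurd (Finset.mem_univ i) h1

/-- the sections, by the weights -/
theorem mem_Sd_iff (hu : ∀ i, PDiv R (u i)) (hd : ∀ i j, i ≠ j → Dist (u i) (u j))
    (n : Fin p → ℤ) (x : K) :
    x ∈ Sd R u n ↔ ∀ w, PDiv R w → w.Ge (0 - ∑ i, (n i : ℝ) * ew u w i) x := by
  constructor
  · rintro ⟨h1, h2⟩ w hw
    by_cases h : ∀ i, Dist w (u i)
    · rw [sum_ew_of_dist h, sub_zero]
      exact h2 w hw h
    · obtain ⟨i, hi⟩ := not_forall.mp h
      rw [sum_ew_of_not hd hi, zero_sub, ge_congr hi]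
      exact h1 i
  · intro h
    refine ⟨fun i => ?_, fun w hw h1 => ?_⟩
    · have := h (u i) (hu i)
      rwa [sum_ew_of_not hd (not_dist_self (u i)), zero_sub] at this
    · have := h w hw
      rwa [sum_ew_of_dist h1, sub_zero] at this

/-- Laurent polynomials have denominators in the Cox algebra. -/
theorem exists_den (hE : Ext K t) (hF : IsFrac R) (hu : ∀ i, PDiv R (u i))
    (f : (Fin p → ℤ) →₀ K) : ∃ s ∈ Cx R u t, s ≠ 0 ∧ lau t f * s ∈ Cx R u t := by
  have hinj : Function.Injective (algebraMap K K') := (algebraMap K K').injective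
  induction f using Finsupp.induction_linear with
  | zero => exact ⟨1, (Cx R u t).one_mem, one_ne_zero, by
      rw [lau_zero, zero_mul]
      exact (Cx R u t).zero_mem⟩
  | add f g hf hg =>
    obtain ⟨s, hs, hs0, h1⟩ := hf
    obtain ⟨r, hr, hr0, h2⟩ := hg
    refine ⟨s * r, (Cx R u t).mul_mem hs hr, mul_ne_zero hs0 hr0, ?_⟩
    have e : lau t (f + g) * (s * r) = lau t f * s * r + lau t g * r * s := by
      rw [lau_add]
      ring
    rw [e]
    exact (Cx R u t).add_mem ((Cx R u t).mul_mem h1 hr) ((Cx R u t).mul_mem h2 hs)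
  | single n x =>
    obtain ⟨a, ha, b, hb, hb0, rfl⟩ := hF x
    refine ⟨algebraMap K K' b * mon t (fun i => |n i|),
      mul_mon_mem_Cx (mem_Sd_of_nonneg hu (fun i => abs_nonneg _) hb),
      mul_ne_zero ((map_ne_zero_iff _ hinj).mpr hb0) (mon_ne hE.ne _), ?_⟩
    have e : lau t (Finsupp.single n (a / b)) * (algebraMap K K' b * mon t (fun i => |n i|)) =
        algebraMap K K' a * mon t (n + fun i => |n i|) := by
      rw [lau_single, mon_add hE.ne, map_div₀]
      have h0 : algebraMap K K' b ≠ 0 := (map_ne_zero_iff _ hinj).mpr hb0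
      field_simp
    rw [e]
    refine mul_mon_mem_Cx (mem_Sd_of_nonneg hu (fun i => ?_) ha)
    rw [Pi.add_apply]
    have := neg_abs_le (n i)
    linarith

theorem isFrac_Cx (hE : Ext K t) (hF : IsFrac R) (hu : ∀ i, PDiv R (u i)) :
    IsFrac (Cx R u t) := by
  intro x
  obtain ⟨f, g, hg, h⟩ := exists_lau hE x
  obtain ⟨s, hs, hs0, h1⟩ := exists_den hE hF hu f
  obtain ⟨r, hr, hr0, h2⟩ := exists_den hE hF hu g
  refine ⟨lau t f * s * r, (Cx R u t).mul_mem h1 hr, lau t g * r * s, (Cx R u t).mul_mem h2 hs,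
    mul_ne_zero (mul_ne_zero hg hr0) hs0, ?_⟩
  rw [← h]
  field_simp

theorem s_CX (hGV : S_GV) : S_CX := by
  intro K K' _ _ _ _ _ R p t u hE hF hu hd
  choose g hg using fun w : RVal K => hGV K K' p t hE w (ew u w)
  have hge : ∀ x, x ∈ Cx R u t → ∀ w, PDiv R w → (g w).Ge 0 x := by
    intro x hx w hw
    obtain ⟨f, hf, rfl⟩ := (mem_Cx hE).mp hx
    exact (hg w f 0).mpr fun n => (mem_Sd_iff hu hd n _).mp (hf n) w hw
  have hle : ∀ f : (Fin p → ℤ) →₀ K, (∀ w, PDiv R w → (g w).Ge 0 (lau t f)) →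
      lau t f ∈ Cx R u t := by
    intro f h
    rw [lau_mem_Cx hE]
    intro n
    rw [mem_Sd_iff hu hd]
    exact fun w hw => (hg w f 0).mp (h w hw) n
  -- the value of a monomial
  have hval : ∀ (w : RVal K) (n : Fin p → ℤ) (x : K), x ≠ 0 →
      (g w).val (algebraMap K K' x * mon t n) = w.val x + ∑ i, (n i : ℝ) * ew u w i := by
    intro w n x hx
    have hne : algebraMap K K' x * mon t n ≠ 0 :=
      mul_ne_zero ((map_ne_zero_iff _ (algebraMap K K').injective).mpr hx) (mon_ne hE.ne n)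
    have h1 : ∀ c : ℝ, c ≤ (g w).val (algebraMap K K' x * mon t n) ↔
        c ≤ w.val x + ∑ i, (n i : ℝ) * ew u w i := by
      intro c
      have h2 := hg w (Finsupp.single n x) c
      rw [lau_single] at h2
      constructor
      · intro h
        have h3 := h2.mp (Or.inr h) n
        rw [Finsupp.single_eq_same] at h3
        have h4 := h3.resolve_left hx
        linarith
      · intro h
        refine (h2.mpr fun m => ?_).resolve_left hne
        classical
        rw [Finsupp.single_apply]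
        split_ifs with hm
        · rw [← hm]
          exact Or.inr (by linarith)
        · exact Or.inl rfl
    exact le_antisymm ((h1 _).mp le_rfl) ((h1 _).mpr le_rfl)
  have hvt : ∀ (w : RVal K) (i : Fin p), (g w).val (t i) = ew u w i := by
    intro w i
    have h1 := hval w (Pi.single i 1) 1 one_ne_zero
    have h2 : w.val 1 = 0 := by
      have := w.map_const 1 one_ne_zero
      rwa [map_one] at this
    rw [map_one, one_mul, mon_single, h2, zero_add, Finset.sum_eq_single i] at h1
    · rw [h1, Pi.single_eq_same, Int.cast_one, one_mul]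
    · intro j _ hj
      rw [Pi.single_eq_of_ne hj, Int.cast_zero, zero_mul]
    · intro h
      exact absurd (Finset.mem_univ i) h
  refine ⟨isFrac_Cx hE hF hu, fun x hx => ?_, g, fun w hw => ⟨fun x hx => ?_, fun i hi => ?_,
    fun i hi => ?_, fun x hx => hge x hx w hw⟩, hle⟩
  · have h1 : x ∈ La hE := by
      refine La_normal hE x ?_
      obtain ⟨q, hq, hqx⟩ := hx
      refine ⟨q.map (Subalgebra.inclusion (Cx_le_La hE)).toRingHom, hq.map _, ?_⟩
      rw [Polynomial.eval₂_map]
      exact hqx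
    obtain ⟨f, rfl⟩ := h1
    exact hle f fun w hw => ge_of_integral (g w) (Cx R u t) (fun y hy => hge y hy w hw) hx
  · have h1 := hval w 0 x hx
    rw [mon_zero, mul_one] at h1
    rw [h1, Finset.sum_eq_zero, add_zero]
    intro i _
    rw [Pi.zero_apply, Int.cast_zero, zero_mul]
  · rw [hvt, ew_of_dist hi]
  · rw [hvt, ew_of_not hi]

end Pool.Agent.Helper74.D4
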