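import Pool.Agent.Helper88.D4.Stmts6
import Pool.Agent.Helper88.D4.CM

/-!
# Project D4 (MP_e1889a_ag): stage 6, the bound for fractional derivations
-/

set_option autoImplicit false

namespace Pool.Agent.Helper74.D4

open Module Filter Topology Pool.Agent.Helper37.SD Pool.Agent.Helper20.TS Pool.Agent.Helper88.D4

section Basic

variable {K : Type} [Field K] [Algebra ℂ K]

/-- the logarithmic derivative has the same degree as the derivation -/
theorem l2_log_wt {ξ Z : Derivation ℂ K K} {ζ n : ℝ} (h : ⁅ξ, Z⁆ = (ζ : ℂ) • Z) {f : K}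
    (hf0 : f ≠ 0) (hf : ξ f = (n : ℂ) • f) : ξ (Z f / f) = (ζ : ℂ) • (Z f / f) := by
  have h1 : ξ (Z f) = (n : ℂ) • Z f + (ζ : ℂ) • Z f := by
    have h2 := congrArg (fun D : Derivation ℂ K K => D f) h
    simp only [Derivation.commutator_apply, Derivation.smul_apply] at h2
    rw [sub_eq_iff_eq_add, hf, Derivation.map_smul] at h2
    rw [h2, add_comm]
  rw [der_div ξ _ _ hf0, h1, hf]
  simp only [Algebra.smul_def]
  field_simp
  ring

/-- weights of products of powers -/
theorem l2_pow_wt {ξ : Derivation ℂ K K} {ζ b : ℝ} {x y : K} (hx : ξ x = (b : ℂ) • x)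
    (hy : ξ y = (ζ : ℂ) • y) (N : ℕ) :
    ξ (x * y ^ N) = ((b + N * ζ : ℝ) : ℂ) • (x * y ^ N) := by
  have h1 : ξ (y ^ N) = ((N : ℂ) * (ζ : ℂ)) • y ^ N := by
    rcases Nat.eq_zero_or_pos N with rfl | hN
    · simp
    · rw [Derivation.leibniz_pow, hy]
      obtain ⟨M, rfl⟩ : ∃ M, N = M + 1 := ⟨N - 1, by omega⟩
      rw [Nat.add_sub_cancel, smul_comm (y ^ M) (ζ : ℂ) y, smul_eq_mul, ← pow_succ,
        ← Nat.cast_smul_eq_nsmul ℂ, smul_smul]
  have h2 : ((b + N * ζ : ℝ) : ℂ) = (N : ℂ) * (ζ : ℂ) + (b : ℂ) := by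
    push_cast
    ring
  rw [Derivation.leibniz, h1, hx, smul_comm x, smul_comm (y ^ N), smul_eq_mul, smul_eq_mul,
    mul_comm (y ^ N) x, ← add_smul, h2]

end Basic

/-- (L2) -/
theorem s_L2 (hKH : S_KH) (hQ : S_Q) (hDEG : S_DEG) (hEX : S_EX1) (hV3 : S_V3) : S_L2 := by
  intro K _ _ R ξ J v a V H c hC hM hX hT Z κ x N b ζ hZ hHZ hcomp hxb hζ
  by_contra hcon
  push Not at hcon
  have hd : 0 < -(b / N + ζ) := lt_trans (half_pos hM.apos) hcon
  obtain ⟨h, hHh, hZh, hcst⟩ := hKH K R ξ J v a V H c hC hM hT Z κ x N b ζ hHZ hcomp hxb hζ hd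
  obtain ⟨l, f, g, m, hl, hf, hg, hf0, hg0, hfm, hgm, hfg, hm, hcop⟩ :=
    hQ K R ξ J a 1 H c hC hX hT h hHh hcst
  have hξf := hT.xi_w hfm
  have hξg := hT.xi_w hgm
  set n : ℝ := ∑ i, c i * m i with hn
  have hNpos : (0 : ℝ) < N := by exact_mod_cast hcomp.pos
  have hcone : IsCone R ξ := hC.toIsCone
  -- the logarithmic derivatives agree
  have hZq : Z (f / g) = 0 := by
    rw [← hfg, Derivation.leibniz_pow, hZh, smul_zero, smul_zero]
  have hcross : g * Z f = f * Z g := by
    rw [der_div Z f g hg0, div_eq_zero_iff] at hZq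
    rcases hZq with h1 | h1
    · exact sub_eq_zero.mp h1
    · exact absurd (mul_self_eq_zero.mp h1) hg0
  have hy : Z f / f = Z g / g := by
    rw [div_eq_div_iff hf0 hg0]
    linear_combination hcross
  -- it is zero
  have hy0 : Z f / f = 0 := by
    by_contra hyne
    have hyN : x * (Z f / f) ^ N ≠ 0 := mul_ne_zero hcomp.ne (pow_ne_zero _ hyne)
    have hmem : x * (Z f / f) ^ N ∈ R := by
      by_contra hnot
      obtain ⟨u, hu, hlt⟩ := hEX K R hcone.frac hcone.fg hC.normal _ hnot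
      obtain ⟨t, ht, hreg⟩ := hcomp.reg u hu
      have hZf : Z f ≠ 0 := fun h0 => hyne (by rw [h0, zero_div])
      have hZg : Z g ≠ 0 := fun h0 => hyne (by rw [hy, h0, zero_div])
      have hval : -(t : ℝ) ≤ u.val (Z f / f) := by
        rcases hcop u hu with h0 | h0
        · rw [u.val_div hZf hf0, h0, sub_zero]
          exact (hreg f (Or.inr h0.ge)).resolve_left hZf
        · rw [hy, u.val_div hZg hg0, h0, sub_zero]
          exact (hreg g (Or.inr h0.ge)).resolve_left hZg
      rw [u.map_mul _ _ hcomp.ne (pow_ne_zero _ hyne), u.val_pow hyne, ht] at hlt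
      nlinarith
    have hw := l2_pow_wt hxb (l2_log_wt hζ hf0 hξf) N
    have h1 := hcone.eig_nonneg hmem hyN hw
    have h2 : b + N * ζ = -(N * (-(b / N + ζ))) := by
      field_simp
    rw [h2] at h1
    have h3 := mul_pos hNpos hd
    linarith
  have hZf0 : Z f = 0 := by
    rcases div_eq_zero_iff.mp hy0 with h1 | h1
    · exact h1
    · exact absurd h1 hf0
  have hZg0 : Z g = 0 := by
    rw [hy] at hy0
    rcases div_eq_zero_iff.mp hy0 with h1 | h1
    · exact h1
    · exact absurd h1 hg0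
  -- the valuation
  obtain ⟨u, hu0, hLD, hu⟩ := hDEG K R ξ J a hC Z x N b ζ hZ hcomp hxb hζ hd
  have huf := hu f n hf hf0 hξf hZf0
  have hug := hu g n hg hg0 hξg hZg0
  have hcop' : ∀ y ∈ R, ∀ z ∈ R, g * y = f * z → ∃ w ∈ R, y = f * w := by
    intro y hyR z hzR he
    refine ⟨y / f, ?_, by field_simp⟩
    by_contra hnot
    obtain ⟨w, hw, hlt⟩ := hEX K R hcone.frac hcone.fg hC.normal _ hnot
    have hyne : y ≠ 0 := by
      rintro rfl
      rw [zero_div] at hnot
      exact hnot R.zero_mem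
    have hzne : z ≠ 0 := by
      rintro rfl
      rw [mul_zero] at he
      rcases mul_eq_zero.mp he with h1 | h1
      · exact hg0 h1
      · exact hyne h1
    rcases hcop w hw with h0 | h0
    · rw [w.val_div hyne hf0, h0, sub_zero] at hlt
      exact absurd (hw.nonneg y hyR hyne) (not_le.mpr hlt)
    · have e : y / f = z / g := by
        rw [div_eq_div_iff hf0 hg0]
        linear_combination he
      rw [e, w.val_div hzne hg0, h0, sub_zero] at hlt
      exact absurd (hw.nonneg z hzR hzne) (not_le.mpr hlt)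
  have hfin := hV3 K R ξ J v a V hC hM.toMin u (a / (-(b / N + ζ)) - 1) hu0 hLD f g n
    (n / (-(b / N + ζ))) hf hg hf0 hg0 hm hξf hξg hcop' (div_nonneg hm.le hd.le) huf.ge hug.ge
  set d : ℝ := -(b / N + ζ) with hdd
  have h1 : a * n ≤ 2 * n * (a - d) := by
    have h2 := mul_le_mul_of_nonneg_right hfin hd.le
    have e1 : a * (n / d) * d = a * n := by field_simp
    have e2 : 2 * n * (a / d - 1) * d = 2 * n * (a - d) := by field_simp
    rwa [e1, e2] at h2
  have h3 : a ≤ 2 * (a - d) := by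
    have h4 : n * a ≤ n * (2 * (a - d)) := by linarith
    exact le_of_mul_le_mul_left h4 hm
  linarith

end Pool.Agent.Helper74.D4
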