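import Pool.Agent.Helper74.D4.L2
import Pool.Agent.Helper11.D4.FrB

/-!
# Project D4 (MP_e1889a_ag): stage 6, the Reeb field is not tangent to the plane field
-/

set_option autoImplicit false

namespace Pool.Agent.Helper74.D4

open Module Filter Topology Pool.Agent.Helper37.SD Pool.Agent.Helper20.TS Pool.Agent.Helper88.D4

section Basic

variable {K : Type} [Field K] [Algebra ℂ K]

theorem xi0_ge_div (u : RVal K) {x y : K} (hx : u.Ge 0 x) (hy0 : y ≠ 0) (hy : u.val y = 0) :
    u.Ge 0 (x / y) := by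
  by_cases hx0 : x = 0
  · left
    rw [hx0, zero_div]
  · right
    rw [u.val_div hx0 hy0, hy, sub_zero]
    exact hx.resolve_left hx0

/-- the Reeb field is not zero -/
theorem xi0_ne {R : Subalgebra ℂ K} {ξ : Derivation ℂ K K} {J : Bra K} {a : ℝ}
    (hC : Cone4 R ξ J a) : ξ ≠ 0 := by
  rintro rfl
  obtain ⟨x, y, z, w, hne⟩ := hC.alt.ne
  apply hne
  obtain ⟨p, hp, q, hq, _, hx⟩ := hC.frac x
  obtain ⟨s, hs⟩ := hC.const p hp rfl
  obtain ⟨t, ht⟩ := hC.const q hq rfl
  rw [hx, hs, ht, ← map_div₀]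
  exact (J y z w).map_algebraMap _

/-- the derivation complementary to the Reeb field in the plane field -/
theorem xi0_Z {R : Subalgebra ℂ K} {ξ : Derivation ℂ K K} {s : ℝ} {D : Fin 2 → Derivation ℂ K K}
    {P : K} (hF : Fr R ξ s D P) (hξ : ξ ≠ 0) {x y : K} (h : ξ = x • D 0 + y • D 1) :
    ∃ Z : Derivation ℂ K K, (∀ F G, ξ F * Z G - Z F * ξ G = P * (D 0 F * D 1 G - D 1 F * D 0 G)) ∧
      ⁅ξ, Z⁆ = ((-s : ℝ) : ℂ) • Z := by
  have hap : ∀ F, ξ F = x * D 0 F + y * D 1 F := fun F => by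
    conv_lhs => rw [h]
    rfl
  have hco : ∀ i F, ξ (D i F) = D i (ξ F) := fun i F => by
    have h1 := congrArg (fun E : Derivation ℂ K K => E F) (hF.com i)
    simp only [Derivation.commutator_apply, Derivation.zero_apply] at h1
    exact sub_eq_zero.mp h1
  have hxy : ξ x = 0 ∧ ξ y = 0 := by
    refine hF.ind _ _ ?_
    ext F
    have h1 : ξ (ξ F) = ξ (x * D 0 F + y * D 1 F) := by rw [← hap]
    rw [map_add, Derivation.leibniz, Derivation.leibniz, hco, hco, hap (ξ F)] at h1
    simp only [smul_eq_mul] at h1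
    simp only [Derivation.add_apply, Derivation.smul_apply, smul_eq_mul, Derivation.zero_apply]
    linear_combination -h1
  by_cases hx : x = 0
  · by_cases hy : y = 0
    · exact absurd (by rw [h, hx, hy, zero_smul, zero_smul, add_zero]) hξ
    · refine ⟨-(P / y) • D 0, fun F G => ?_, ?_⟩
      · simp only [Derivation.smul_apply, smul_eq_mul]
        rw [hap F, hap G, hx]
        field_simp
        ring
      · ext F
        have h1 : ξ (P / y) = ((-s : ℝ) : ℂ) • (P / y) := by
          rw [der_div ξ _ _ hy, hF.wt, hxy.2]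
          simp only [Algebra.smul_def]
          field_simp
          ring
        simp only [Derivation.commutator_apply, Derivation.smul_apply, smul_eq_mul]
        rw [Derivation.leibniz, map_neg, h1, hco]
        simp only [smul_eq_mul]
        simp only [Algebra.smul_def]
        ring
  · refine ⟨(P / x) • D 1, fun F G => ?_, ?_⟩
    · simp only [Derivation.smul_apply, smul_eq_mul]
      rw [hap F, hap G]
      field_simp
      ring
    · ext F
      have h1 : ξ (P / x) = ((-s : ℝ) : ℂ) • (P / x) := by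
        rw [der_div ξ _ _ hx, hF.wt, hxy.1]
        simp only [Algebra.smul_def]
        field_simp
        ring
      simp only [Derivation.commutator_apply, Derivation.smul_apply, smul_eq_mul]
      rw [Derivation.leibniz, h1, hco]
      simp only [smul_eq_mul]
      simp only [Algebra.smul_def]
      ring

/-- the wedge product with the Reeb field is not zero -/
theorem xi0_indep {R : Subalgebra ℂ K} {ξ : Derivation ℂ K K} {s : ℝ}
    {D : Fin 2 → Derivation ℂ K K} {P : K} (hF : Fr R ξ s D P) {Z : Derivation ℂ K K}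
    (hZ : ∀ F G, ξ F * Z G - Z F * ξ G = P * (D 0 F * D 1 G - D 1 F * D 0 G)) (t : ℂ) (ht : t ≠ 0)
    (g : K) : t • Z - g • ξ ≠ 0 := by
  intro h
  have h1 : ∀ F, t • Z F = g * ξ F := fun F => by
    have h2 := congrArg (fun E : Derivation ℂ K K => E F) h
    simp only [Derivation.sub_apply, Derivation.smul_apply, smul_eq_mul, Derivation.zero_apply] at h2
    exact sub_eq_zero.mp h2
  have ht' : algebraMap ℂ K t ≠ 0 := (map_ne_zero _).mpr ht
  have h2 : ∀ F G, D 0 F * D 1 G - D 1 F * D 0 G = 0 := fun F G => by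
    have h3 := hZ F G
    have h4 := h1 F
    have h5 := h1 G
    rw [Algebra.smul_def] at h4 h5
    have h6 : algebraMap ℂ K t * (P * (D 0 F * D 1 G - D 1 F * D 0 G)) = 0 := by
      rw [← h3]
      linear_combination ξ F * h5 - ξ G * h4
    exact (mul_eq_zero.mp ((mul_eq_zero.mp h6).resolve_left ht')).resolve_left hF.ne
  by_cases h0 : D 0 = 0
  · have := (hF.ind 1 0 (by rw [h0, smul_zero, zero_smul, add_zero])).1
    exact one_ne_zero this
  · obtain ⟨F, hF0⟩ : ∃ F, D 0 F ≠ 0 := by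
      by_contra hall
      push Not at hall
      exact h0 (Derivation.ext hall)
    have := (hF.ind (D 1 F) (-(D 0 F)) (by
      ext G
      simp only [Derivation.add_apply, Derivation.smul_apply, smul_eq_mul, Derivation.zero_apply]
      linear_combination -(h2 F G))).2
    exact hF0 (neg_eq_zero.mp this)

/-- brackets with the Reeb field -/
theorem xi0_br {ξ Z : Derivation ℂ K K} {ζ : ℝ} (hZ : ⁅ξ, Z⁆ = (ζ : ℂ) • Z) {g : K}
    (hg : ξ g = (ζ : ℂ) • g) (t : ℂ) :
    ⁅ξ, t • Z - g • ξ⁆ = (ζ : ℂ) • (t • Z - g • ξ) := by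
  ext F
  have h1 := congrArg (fun E : Derivation ℂ K K => E F) hZ
  simp only [Derivation.commutator_apply, Derivation.smul_apply] at h1
  simp only [Derivation.commutator_apply, Derivation.sub_apply, Derivation.smul_apply, smul_eq_mul,
    map_sub, Derivation.map_smul, Derivation.leibniz, hg]
  simp only [Algebra.smul_def] at h1 ⊢
  linear_combination algebraMap ℂ K t * h1

/-- brackets with the generator of a torus of rank 1 -/
theorem xi0_H {R : Subalgebra ℂ K} {ξ : Derivation ℂ K K} {H : Fin 1 → Derivation ℂ K K}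
    {c : Fin 1 → ℝ} (hT : Tor R ξ H c) (hξ : ξ ≠ 0) {a : ℝ} {w₀ : ℤ} (hw : c 0 * w₀ = a)
    {Z : Derivation ℂ K K} (hZ : ⁅ξ, Z⁆ = ((-a : ℝ) : ℂ) • Z) :
    ⁅H 0, Z⁆ = ((-w₀ : ℤ) : ℂ) • Z := by
  have h1 : ξ = (c 0 : ℂ) • H 0 := by
    have := hT.xi
    rwa [Fin.sum_univ_one] at this
  have hc0 : (c 0 : ℂ) ≠ 0 := by
    intro h0
    rw [h0, zero_smul] at h1
    exact hξ h1
  have h2 : (c 0 : ℂ) • ⁅H 0, Z⁆ = (c 0 : ℂ) • (((-w₀ : ℤ) : ℂ) • Z) := by
    rw [← smul_lie, ← h1, hZ, smul_smul, ← hw]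
    congr 1
    push_cast
    ring
  exact smul_right_injective _ hc0 h2

/-- a derivation of weight `κ` shifts the weights -/
theorem xi0_isW {H : Fin 1 → Derivation ℂ K K} {Z : Derivation ℂ K K} {κ : ℤ}
    (hZ : ⁅H 0, Z⁆ = (κ : ℂ) • Z) (m : Fin 1 → ℤ) (φ : K) (hφ : IsW H m φ) :
    IsW H (m + fun _ => κ) (Z φ) := by
  intro i
  have hi : i = 0 := Subsingleton.elim _ _
  subst hi
  have h1 := congrArg (fun E : Derivation ℂ K K => E φ) hZ
  simp only [Derivation.commutator_apply, Derivation.smul_apply] at h1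
  rw [hφ 0, Derivation.map_smul, sub_eq_iff_eq_add] at h1
  rw [h1, ← add_smul]
  congr 1
  simp only [Pi.add_apply]
  push_cast
  ring

end Basic

/-- (XI0) -/
theorem s_XI0 (hUNT : S_UNT) (hW0 : S_W0) (hWN : S_WN) (hWR : S_WR)
    (hWW : Pool.Agent.Helper11.D4.S_WW) (hWV : Pool.Agent.Helper11.D4.S_WV) (hCNT : S_CNT)
    (hQ : S_Q) (hL2 : S_L2) (hEX : S_EX1) : S_XI0 := by
  intro K _ _ R ξ J v a V H c hC hM hX hT D P hF
  rintro ⟨x, y, hxy⟩
  have hξ : ξ ≠ 0 := xi0_ne hC
  have hcone : IsCone R ξ := hC.toIsCone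
  have ha : 0 < a := hM.apos
  obtain ⟨Z, hZw, hZb⟩ := xi0_Z hF hξ hxy
  obtain ⟨w₁, hJw, hw₁⟩ := hW0 K R ξ J a 1 H c hC hT
  rw [Fin.sum_univ_one] at hw₁
  set w₀ : ℤ := w₁ 0 with hw₀
  have hZH := xi0_H hT hξ hw₁ hZb
  -- the value of the complementary derivation at a prime divisor
  have hreg : ∀ (u : RVal K), PDiv R u → ∀ (f : K) (w : ℝ), f ∈ R → f ≠ 0 → ξ f = (w : ℂ) • f →
      u.val f = 0 → ∀ F, u.Ge 0 F → u.Ge 0 ((w : ℂ) • Z F - Z f / f * ξ F) := by
    intro u hu f w hf hf0 hfw huf F hFu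
    have h1 := hF.reg u hu f F (Or.inr huf.ge) hFu
    rw [← hZw f F, hfw] at h1
    have h2 : (w : ℂ) • Z F - Z f / f * ξ F = ((w : ℂ) • f * Z F - Z f * ξ F) / f := by
      simp only [Algebra.smul_def]
      field_simp
    rw [h2]
    exact xi0_ge_div u h1 hf0 huf
  by_cases hfi : ∀ h, (∀ i, H i h = 0) → Z h = 0 → Cst h
  · -- no first integral: the Wronskian
    obtain ⟨m, hm, hbig, hfin⟩ := hCNT K R ξ J v a V 1 H c hC hM.toMin hT le_rfl (by norm_num)
      (2 / a + 1)
    set w : ℝ := ∑ i, c i * m i with hw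
    set n : ℕ := finrank ℂ (Wsp R H m) with hn
    let b := Module.finBasis ℂ (Wsp R H m)
    let f : Fin n → K := fun i => (b i : K)
    have hfR : ∀ i, f i ∈ R := fun i => (b i).2.1
    have hfw : ∀ i, IsW H m (f i) := fun i => (b i).2.2
    have hf0 : ∀ i, f i ≠ 0 := fun i h => b.ne_zero i (Subtype.ext h)
    have hfli : LinearIndependent ℂ f := b.linearIndependent.map' (Wsp R H m).subtype
      (Submodule.ker_subtype _)
    have hZs := xi0_isW hZH
    have hW : wr Z f ≠ 0 := hWN K 1 H Z (fun _ => -w₀) hZs hfi n f m hfw hfli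
    have hWw := hWW K 1 H Z (fun _ => -w₀) hZs n f m hfw
    have hWR' : wr Z f ∈ R := by
      by_contra hnot
      obtain ⟨u, hu, hlt⟩ := hEX K R hcone.frac hcone.fg hC.normal _ hnot
      obtain ⟨f₀, w', hf₀R, hf₀0, hw'0, hf₀w, huf₀⟩ := hUNT K R ξ J a hC u hu
      have hw'c : (w' : ℂ) ≠ 0 := by exact_mod_cast hw'0.ne'
      set g : K := (w' : ℂ)⁻¹ • (Z f₀ / f₀) with hg
      have hgξ : ξ g = ((-a : ℝ) : ℂ) • g := by
        rw [hg, Derivation.map_smul, l2_log_wt hZb hf₀0 hf₀w, smul_comm]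
      have hZub := xi0_br hZb hgξ 1
      have hZuH := xi0_H hT hξ hw₁ hZub
      have hZus := xi0_isW hZuH
      have hwr : wr ((1 : ℂ) • Z - g • ξ) f = wr Z f := by
        refine hWR K 1 H Z _ (fun _ => -w₀) hZs hZus
          (fun m => -(g * algebraMap ℂ K ((∑ i, c i * m i : ℝ) : ℂ))) (fun m φ hφ => ?_) n f m hfw
        rw [Derivation.sub_apply, Derivation.smul_apply, Derivation.smul_apply, one_smul,
          smul_eq_mul, hT.xi_w hφ, Algebra.smul_def]
        ring
      have hge : u.Ge 0 (wr ((1 : ℂ) • Z - g • ξ) f) := by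
        refine hWV K u _ (fun F hFu => ?_) n f fun j => Or.inr (hu.nonneg _ (hfR j) (hf0 j))
        have h1 := hreg u hu f₀ w' hf₀R hf₀0 hf₀w huf₀ F hFu
        have h2 : ((1 : ℂ) • Z - g • ξ) F =
            (w' : ℂ)⁻¹ • ((w' : ℂ) • Z F - Z f₀ / f₀ * ξ F) := by
          rw [Derivation.sub_apply, Derivation.smul_apply, Derivation.smul_apply, one_smul,
            smul_eq_mul, smul_sub, smul_smul, inv_mul_cancel₀ hw'c, one_smul, hg, smul_mul_assoc]
        rw [h2]
        exact u.ge_smul _ h1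
      rw [hwr] at hge
      rcases hge with h | h
      · exact hW h
      · linarith
    have h1 := hcone.eig_nonneg hWR' hW (hT.xi_w hWw)
    set s : ℕ := ∑ i : Fin n, (i : ℕ) with hs
    have hs2 : (s : ℝ) * 2 = n * (n - 1) := by
      have h2 : s * 2 = n * (n - 1) := by
        rw [hs, Fin.sum_univ_eq_sum_range (fun i => i) n, Finset.sum_range_id_mul_two]
      rcases Nat.eq_zero_or_pos n with h0 | h0
      · rw [h0] at h2 ⊢
        have : s = 0 := by omega
        rw [this]
        simp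
      · have h3 : ((s * 2 : ℕ) : ℝ) = ((n * (n - 1) : ℕ) : ℝ) := by rw [h2]
        push_cast [Nat.cast_sub h0] at h3
        exact h3
    have h2 : (∑ i, c i * (((n : ℤ) • m + (s : ℤ) • fun _ : Fin 1 => -w₀) i : ℤ) : ℝ) =
        n * w - s * a := by
      rw [hw, Fin.sum_univ_one, Fin.sum_univ_one, ← hw₁]
      simp only [Pi.add_apply, Pi.smul_apply, smul_eq_mul]
      push_cast
      ring
    rw [h2] at h1
    have hn0 : (0 : ℝ) < n := by
      refine lt_of_le_of_lt ?_ hbig
      positivity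
    have h3 : ((n : ℝ) - 1) * a ≤ 2 * w := by
      have h4 : (n : ℝ) * (((n : ℝ) - 1) * a) ≤ n * (2 * w) := by
        have : (n : ℝ) * (((n : ℝ) - 1) * a) = s * 2 * a := by rw [hs2]; ring
        rw [this]
        linarith
      exact le_of_mul_le_mul_left h4 hn0
    have h5 : (n : ℝ) * a ≤ 2 * w + a := by linarith
    have h6 : (2 / a + 1) * (w + 1) ^ 2 * a < n * a := by
      have := mul_lt_mul_of_pos_right hbig ha
      simpa using this
    have h7 : (2 / a + 1) * (w + 1) ^ 2 * a = (2 + a) * (w + 1) ^ 2 := by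
      field_simp
    rw [h7] at h6
    nlinarith [mul_pos ha hm, sq_nonneg w, mul_pos ha ha, hm, mul_nonneg ha.le (sq_nonneg w)]
  · -- a first integral
    push Not at hfi
    obtain ⟨h, hHh, hZh, hcst⟩ := hfi
    obtain ⟨l, f, g, m, hl, hf, hg, hf0, hg0, hfm, hgm, hfg, hm, hcop⟩ :=
      hQ K R ξ J a 1 H c hC hX hT h hHh hcst
    have hξf := hT.xi_w hfm
    have hξg := hT.xi_w hgm
    set n : ℝ := ∑ i, c i * m i with hn
    have hnc : (n : ℂ) ≠ 0 := by exact_mod_cast hm.ne'
    have hZq : Z (f / g) = 0 := by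
      rw [← hfg, Derivation.leibniz_pow, hZh, smul_zero, smul_zero]
    have hcross : g * Z f = f * Z g := by
      rw [der_div Z f g hg0, div_eq_zero_iff] at hZq
      rcases hZq with h1 | h1
      · exact sub_eq_zero.mp h1
      · exact absurd (mul_self_eq_zero.mp h1) hg0
    have hy : Z f / f = Z g / g := by
      rw [div_eq_div_iff hf0 hg0]
      linear_combination hcross
    have hgξ : ξ (Z g / g) = ((-a : ℝ) : ℂ) • (Z g / g) := l2_log_wt hZb hg0 hξg
    have hΔb := xi0_br hZb hgξ (n : ℂ)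
    have hΔH := xi0_H hT hξ hw₁ hΔb
    have hΔ0 := xi0_indep hF hZw (n : ℂ) hnc (Z g / g)
    have hcomp : Comp R ((n : ℂ) • Z - (Z g / g) • ξ) 1 1 := by
      refine ⟨one_ne_zero, Nat.one_pos, fun u hu => ⟨0, ?_, fun F hFu => ?_⟩⟩
      · rw [u.val_one]
        simp
      · have h2 : ((n : ℂ) • Z - (Z g / g) • ξ) F = (n : ℂ) • Z F - Z g / g * ξ F := by
          rw [Derivation.sub_apply, Derivation.smul_apply, Derivation.smul_apply, smul_eq_mul]
        have h3 : (-((0 : ℤ) : ℝ)) = 0 := by simp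
        rw [h2, h3]
        rcases hcop u hu with h0 | h0
        · rw [← hy]
          exact hreg u hu f n hf hf0 hξf h0 F hFu
        · exact hreg u hu g n hg hg0 hξg h0 F hFu
    have h1 := hL2 K R ξ J v a V H c hC hM hX hT _ (-w₀) 1 1 0 (-a) hΔ0 hΔH hcomp
      (by rw [Derivation.map_one_eq_zero, Complex.ofReal_zero, zero_smul]) hΔb
    simp at h1
    linarith

end Pool.Agent.Helper74.D4
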