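import Pool.Agent.Helper74.D4.XI0
import Pool.Agent.Helper76.D4.Stmts7

/-!
# Project D4 (MP_e1889a_ag): stage 7, the Reeb field is not tangent to the plane field
-/

set_option autoImplicit false

namespace Pool.Agent.Helper74.D4

open Module Filter Topology Pool.Agent.Helper37.SD Pool.Agent.Helper20.TS Pool.Agent.Helper88.D4
open Pool.Agent.Helper76.D4 (S_XI1 S_XIx)

/-- (XIx) -/
theorem s_XIx (hUNT : S_UNT) (hW0 : S_W0) (hWN : S_WN) (hWR : S_WR)
    (hWW : Pool.Agent.Helper11.D4.S_WW) (hWV : Pool.Agent.Helper11.D4.S_WV) (hCNT : S_CNT)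
    (hXI : S_XI1) (hEX : S_EX1) : S_XIx := by
  intro K _ _ R ξ J v a V H c hC hM hX hT D P hF
  rintro ⟨x, y, hxy⟩
  have hξ : ξ ≠ 0 := xi0_ne hC
  have hcone : IsCone R ξ := hC.toIsCone
  have ha : 0 < a := hM.apos
  obtain ⟨Z, hZw, hZb⟩ := xi0_Z hF hξ hxy
  obtain ⟨w₁, hJw, hw₁⟩ := hW0 K R ξ J a 1 H c hC hT
  rw [Fin.sum_univ_one] at hw₁
  set w₀ : ℤ := w₁ 0 with hw₀
  have hZH := xi0_H hT hξ hw₁ hZb
  -- the value of the complementary derivation at a prime divisor
  have hreg : ∀ (u : RVal K), PDiv R u → ∀ (f : K) (w : ℝ), f ∈ R → f ≠ 0 → ξ f = (w : ℂ) • f →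
      u.val f = 0 → ∀ F, u.Ge 0 F → u.Ge 0 ((w : ℂ) • Z F - Z f / f * ξ F) := by
    intro u hu f w hf hf0 hfw huf F hFu
    have h1 := hF.reg u hu f F (Or.inr huf.ge) hFu
    rw [← hZw f F, hfw] at h1
    have h2 : (w : ℂ) • Z F - Z f / f * ξ F = ((w : ℂ) • f * Z F - Z f * ξ F) / f := by
      simp only [Algebra.smul_def]
      field_simp
    rw [h2]
    exact xi0_ge_div u h1 hf0 huf
  by_cases hfi : ∀ h, (∀ i, H i h = 0) → Z h = 0 → Cst h
  · -- no first integral: the Wronskian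
    obtain ⟨m, hm, hbig, hfin⟩ := hCNT K R ξ J v a V 1 H c hC hM.toMin hT le_rfl (by norm_num)
      (2 / a + 1)
    set w : ℝ := ∑ i, c i * m i with hw
    set n : ℕ := finrank ℂ (Wsp R H m) with hn
    let b := Module.finBasis ℂ (Wsp R H m)
    let f : Fin n → K := fun i => (b i : K)
    have hfR : ∀ i, f i ∈ R := fun i => (b i).2.1
    have hfw : ∀ i, IsW H m (f i) := fun i => (b i).2.2
    have hf0 : ∀ i, f i ≠ 0 := fun i h => b.ne_zero i (Subtype.ext h)
    have hfli : LinearIndependent ℂ f := b.linearIndependent.map' (Wsp R H m).subtype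
      (Submodule.ker_subtype _)
    have hZs := xi0_isW hZH
    have hW : wr Z f ≠ 0 := hWN K 1 H Z (fun _ => -w₀) hZs hfi n f m hfw hfli
    have hWw := hWW K 1 H Z (fun _ => -w₀) hZs n f m hfw
    have hWR' : wr Z f ∈ R := by
      by_contra hnot
      obtain ⟨u, hu, hlt⟩ := hEX K R hcone.frac hcone.fg hC.normal _ hnot
      obtain ⟨f₀, w', hf₀R, hf₀0, hw'0, hf₀w, huf₀⟩ := hUNT K R ξ J a hC u hu
      have hw'c : (w' : ℂ) ≠ 0 := by exact_mod_cast hw'0.ne'
      set g : K := (w' : ℂ)⁻¹ • (Z f₀ / f₀) with hg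
      have hgξ : ξ g = ((-a : ℝ) : ℂ) • g := by
        rw [hg, Derivation.map_smul, l2_log_wt hZb hf₀0 hf₀w, smul_comm]
      have hZub := xi0_br hZb hgξ 1
      have hZuH := xi0_H hT hξ hw₁ hZub
      have hZus := xi0_isW hZuH
      have hwr : wr ((1 : ℂ) • Z - g • ξ) f = wr Z f := by
        refine hWR K 1 H Z _ (fun _ => -w₀) hZs hZus
          (fun m => -(g * algebraMap ℂ K ((∑ i, c i * m i : ℝ) : ℂ))) (fun m φ hφ => ?_) n f m hfw
        rw [Derivation.sub_apply, Derivation.smul_apply, Derivation.smul_apply, one_smul,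
          smul_eq_mul, hT.xi_w hφ, Algebra.smul_def]
        ring
      have hge : u.Ge 0 (wr ((1 : ℂ) • Z - g • ξ) f) := by
        refine hWV K u _ (fun F hFu => ?_) n f fun j => Or.inr (hu.nonneg _ (hfR j) (hf0 j))
        have h1 := hreg u hu f₀ w' hf₀R hf₀0 hf₀w huf₀ F hFu
        have h2 : ((1 : ℂ) • Z - g • ξ) F =
            (w' : ℂ)⁻¹ • ((w' : ℂ) • Z F - Z f₀ / f₀ * ξ F) := by
          rw [Derivation.sub_apply, Derivation.smul_apply, Derivation.smul_apply, one_smul,
            smul_eq_mul, smul_sub, smul_smul, inv_mul_cancel₀ hw'c, one_smul, hg, smul_mul_assoc]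
        rw [h2]
        exact u.ge_smul _ h1
      rw [hwr] at hge
      rcases hge with h | h
      · exact hW h
      · linarith
    have h1 := hcone.eig_nonneg hWR' hW (hT.xi_w hWw)
    set s : ℕ := ∑ i : Fin n, (i : ℕ) with hs
    have hs2 : (s : ℝ) * 2 = n * (n - 1) := by
      have h2 : s * 2 = n * (n - 1) := by
        rw [hs, Fin.sum_univ_eq_sum_range (fun i => i) n, Finset.sum_range_id_mul_two]
      rcases Nat.eq_zero_or_pos n with h0 | h0
      · rw [h0] at h2 ⊢
        have : s = 0 := by omega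
        rw [this]
        simp
      · have h3 : ((s * 2 : ℕ) : ℝ) = ((n * (n - 1) : ℕ) : ℝ) := by rw [h2]
        push_cast [Nat.cast_sub h0] at h3
        exact h3
    have h2 : (∑ i, c i * (((n : ℤ) • m + (s : ℤ) • fun _ : Fin 1 => -w₀) i : ℤ) : ℝ) =
        n * w - s * a := by
      rw [hw, Fin.sum_univ_one, Fin.sum_univ_one, ← hw₁]
      simp only [Pi.add_apply, Pi.smul_apply, smul_eq_mul]
      push_cast
      ring
    rw [h2] at h1
    have hn0 : (0 : ℝ) < n := by
      refine lt_of_le_of_lt ?_ hbig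
      positivity
    have h3 : ((n : ℝ) - 1) * a ≤ 2 * w := by
      have h4 : (n : ℝ) * (((n : ℝ) - 1) * a) ≤ n * (2 * w) := by
        have : (n : ℝ) * (((n : ℝ) - 1) * a) = s * 2 * a := by rw [hs2]; ring
        rw [this]
        linarith
      exact le_of_mul_le_mul_left h4 hn0
    have h5 : (n : ℝ) * a ≤ 2 * w + a := by linarith
    have h6 : (2 / a + 1) * (w + 1) ^ 2 * a < n * a := by
      have := mul_lt_mul_of_pos_right hbig ha
      simpa using this
    have h7 : (2 / a + 1) * (w + 1) ^ 2 * a = (2 + a) * (w + 1) ^ 2 := by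
      field_simp
    rw [h7] at h6
    nlinarith [mul_pos ha hm, sq_nonneg w, mul_pos ha ha, hm, mul_nonneg ha.le (sq_nonneg w)]
  · -- a first integral
    push Not at hfi
    obtain ⟨h, hHh, hZh, hcst⟩ := hfi
    refine hcst (hXI K R ξ J v a V hC hM hX Z hZb (fun g hg => ?_) (fun u hu F G hFu hGu => ?_) h
      ?_ hZh)
    · refine xi0_indep hF hZw 1 one_ne_zero g ?_
      rw [one_smul, hg, sub_self]
    · rw [hZw]
      exact hF.reg u hu F G hFu hGu
    · rw [hT.xi, Fin.sum_univ_one, Derivation.smul_apply, hHh 0, smul_zero]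

end Pool.Agent.Helper74.D4
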